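import Pool.Agent.Q326.ED.Main

/-!
# Edit-distance balls can need exponentially many deterministic states

`ball k x` (file `Pool.Agent.Q326.ED.Basic`) is the language of all words `w` with
`dist x w ≤ k`, where `dist` is the least number of single-symbol insertions, deletions and
substitutions (`Edit`) that transform `x` into `w`.  `DFA α σ` is Mathlib's type of complete
deterministic finite automata.

Idea: let `x` consist of `6 N` distinct letters `0, ..., 6 N - 1` and let `k = 2 N`.  For a sequence
`b` of `N` bits read the word `u_b` with letters `3 q + b q`, `q < N`.  The prefix of length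
`N + 2 q` of `x` has distance `N + q - 1` from `u_b` if `b q = 0` and distance at least `N + q` if
`b q = 1`.  The continuation consisting of the rest of `x` and of `N + 1 - q` copies of a new letter
makes this difference visible.
-/

set_option autoImplicit false

namespace Pool.Agent.Results.MP_ecf776_lc.ExponentialStates

open Pool.Agent.Q326.ED

/-- **The size of the smallest deterministic automaton recognising a ball of the edit distance can
be exponential in the radius and in the length of the centre**: there is a constant `c > 0` (in
fact `c = 1 / 2`) such that for every `N` there are a finite alphabet, a word `x` and a radius `k`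
with `min k |x| ≥ N` such that every deterministic finite automaton for the ball of radius `k`
around `x` has at least `2 ^ (c * min k |x|)` states. -/
theorem result : ∃ c : ℝ, 0 < c ∧ ∀ N : ℕ, ∃ (α : Type) (_ : Fintype α) (x : List α) (k : ℕ),
    N ≤ min k x.length ∧ ∀ (σ : Type) [Fintype σ] (M : DFA α σ), M.accepts = ball k x →
      (2 : ℝ) ^ (c * (min k x.length : ℕ)) ≤ Fintype.card σ := by
  refine ⟨1 / 2, by norm_num, fun N => ?_⟩
  let f : ℕ → Fin (6 * N + 1) := fun i => ⟨min i (6 * N), by omega⟩
  have hf : ∀ i j, i < 6 * N → j < 6 * N → f i = f j → i = j := by
    intro i j hi hj h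
    have := congrArg Fin.val h
    simp only [f] at this
    omega
  have hz : ∀ i < 6 * N, f i ≠ f (6 * N) := by
    intro i hi h
    have := congrArg Fin.val h
    simp only [f] at this
    omega
  refine ⟨Fin (6 * N + 1), inferInstance, R f 0 (6 * N), 2 * N, ?_, ?_⟩
  · rw [length_R]
    omega
  · intro σ _ M hM
    have h := states hf hz M hM
    rw [length_R, show min (2 * N) (6 * N) = 2 * N by omega]
    have e : (1 / 2 : ℝ) * ((2 * N : ℕ) : ℝ) = (N : ℝ) := by
      push_cast
      ring
    rw [e, Real.rpow_natCast]
    exact_mod_cast h

end Pool.Agent.Results.MP_ecf776_lc.ExponentialStates
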